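import Mathlib
import Pool.Agent.N984.QX.Stm2

/-!
# QX/CORE0: the local obstruction for `n = 2 k` (for helper984)
-/

set_option autoImplicit false

namespace Pool.Agent.N402.QX

open Pool.Agent.N984.QX

section
variable {n : ℕ} {ψ : (Fin n → ZMod 2) → ℂ}

/-- supported in `X` -/
def Sp (X : Finset (Fin n)) (v : Vc n) : Prop := ∀ i, i ∉ X → v i = 0

open Classical in
lemma W_eq (X : Finset (Fin n)) :
    W ψ X = ∑ v : Vc n, if Sp X v then ‖ev ψ v‖ ^ 2 else 0 := by
  unfold W
  rw [Finset.sum_filter]
  refine Finset.sum_congr rfl fun v _ => ?_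
  unfold Sp
  congr

lemma W_mono {X Y : Finset (Fin n)} (h : X ⊆ Y) : W ψ X ≤ W ψ Y := by
  classical
  rw [W_eq, W_eq]
  refine Finset.sum_le_sum fun v _ => ?_
  by_cases h1 : Sp X v
  · have h2 : Sp Y v := fun i hi => h1 i fun h' => hi (h h')
    rw [if_pos h1, if_pos h2]
  · rw [if_neg h1]
    split_ifs
    · positivity
    · exact le_rfl

lemma sp_zero (X : Finset (Fin n)) : Sp X (0 : Vc n) := fun _ _ => rfl

lemma W_ge (h0 : ev ψ 0 = 1) (X : Finset (Fin n)) : 1 ≤ W ψ X := by
  classical
  rw [W_eq]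
  have h1 : (if Sp X (0 : Vc n) then ‖ev ψ 0‖ ^ 2 else 0) = (1 : ℝ) := by
    rw [if_pos (sp_zero X), h0]
    simp
  calc (1 : ℝ) = (if Sp X (0 : Vc n) then ‖ev ψ 0‖ ^ 2 else 0) := h1.symm
    _ ≤ _ := Finset.single_le_sum (f := fun v : Vc n => if Sp X v then ‖ev ψ v‖ ^ 2 else 0)
        (fun v _ => by
          show (0 : ℝ) ≤ if Sp X v then ‖ev ψ v‖ ^ 2 else 0
          split_ifs
          · positivity
          · exact le_rfl) (Finset.mem_univ (0 : Vc n))

open Classical in
/-- the part of `W` of the nonzero vectors -/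
lemma W_sub (h0 : ev ψ 0 = 1) (X : Finset (Fin n)) :
    W ψ X = 1 + ∑ v : Vc n, if v ≠ 0 ∧ Sp X v then ‖ev ψ v‖ ^ 2 else 0 := by
  rw [W_eq]
  have h1 : ∀ v : Vc n, (if Sp X v then ‖ev ψ v‖ ^ 2 else 0) =
      (if v = 0 then (1 : ℝ) else 0) + if v ≠ 0 ∧ Sp X v then ‖ev ψ v‖ ^ 2 else 0 := by
    intro v
    by_cases hv : v = 0
    · subst hv
      rw [if_pos (sp_zero X), if_pos rfl, h0, if_neg (fun h => h.1 rfl)]
      simp
    · rw [if_neg hv, zero_add]
      by_cases h2 : Sp X v
      · rw [if_pos h2, if_pos ⟨hv, h2⟩]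
      · rw [if_neg h2, if_neg (fun h => h2 h.2)]
  rw [Finset.sum_congr rfl fun v _ => h1 v, Finset.sum_add_distrib, Finset.sum_ite_eq' ]
  simp

lemma W_one (h0 : ev ψ 0 = 1) (X : Finset (Fin n)) (h : ∀ v, v ≠ 0 → Sp X v → ev ψ v = 0) :
    W ψ X = 1 := by
  classical
  rw [W_sub h0, Finset.sum_eq_zero, add_zero]
  intro v _
  split_ifs with h1
  · rw [h v h1.1 h1.2]
    simp
  · rfl

end

theorem t_CORE0 (h0 : S_EV0) (h1 : S_WEV) (h2 : S_DUAL) : S_CORE0 := by
  classical
  intro n D S ψ hψ hDS hS hn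
  have hev := h0 n ψ hψ
  set Bad : Finset (Finset (Fin n)) := (S.powersetCard 6).filter fun B => ¬ MaxMixed ψ (D ∪ B)
    with hBad
  have hcard : Set.ncard {B : Finset (Fin n) | B ⊆ S ∧ B.card = 6 ∧ ¬ MaxMixed ψ (D ∪ B)} =
      Bad.card := by
    rw [← Set.ncard_coe_finset]
    congr 1
    ext B
    simp only [Set.mem_ofPred_eq, hBad, Finset.coe_filter, Finset.mem_powersetCard]
    tauto
  rw [hcard]
  by_contra hcon
  have hB2 : Bad.card ≤ 2 := by omega
  have hgood : ∀ B, B ⊆ S → B.card = 6 → B ∉ Bad → MaxMixed ψ (D ∪ B) := by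
    intro B hB hc hb
    by_contra h
    exact hb (Finset.mem_filter.2 ⟨Finset.mem_powersetCard.2 ⟨hB, hc⟩, h⟩)
  -- (1)
  have hT : ∀ T, T ⊆ S → T.card ≤ 5 → ∃ B, T ⊆ B ∧ B ⊆ S ∧ B.card = 6 ∧ MaxMixed ψ (D ∪ B) := by
    intro T hTS hTc
    obtain ⟨T', hT1, hT2, hT3⟩ := Finset.exists_subsuperset_card_eq hTS hTc (by omega)
    have h3 : (S \ T').card = 3 := by
      rw [Finset.card_sdiff_of_subset hT2]
      omega
    have h4 : ((S \ T').image fun j => insert j T').card = 3 := by
      rw [Finset.card_image_of_injOn, h3]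
      intro j hj j' hj' hjj
      rw [Finset.coe_sdiff, Set.mem_sdiff, Finset.mem_coe, Finset.mem_coe] at hj hj'
      have h5 : j ∈ insert j' T' := by
        have : (fun j => insert j T') j = (fun j => insert j T') j' := hjj
        simp only at this
        rw [← this]
        exact Finset.mem_insert_self _ _
      rcases Finset.mem_insert.1 h5 with h6 | h6
      · exact h6
      · exact absurd h6 hj.2
    by_contra hno
    have h5 : ((S \ T').image fun j => insert j T') ⊆ Bad := by
      intro B hB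
      obtain ⟨j, hj, rfl⟩ := Finset.mem_image.1 hB
      rw [Finset.mem_sdiff] at hj
      by_contra hb
      have h6 : insert j T' ⊆ S := Finset.insert_subset hj.1 hT2
      have h7 : (insert j T').card = 6 := by
        rw [Finset.card_insert_of_notMem hj.2]
        omega
      exact hno ⟨insert j T', hT1.trans (Finset.subset_insert _ _), h6, h7,
        hgood _ h6 h7 hb⟩
    have := Finset.card_le_card h5
    omega
  have hzero : ∀ T, T ⊆ S → T.card ≤ 5 → ∀ v : Vc n, v ≠ 0 → Sp (D ∪ T) v → ev ψ v = 0 := by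
    intro T hTS hTc v hv hsp
    obtain ⟨B, hTB, hBS, hBc, hmm⟩ := hT T hTS hTc
    refine h1 n ψ (D ∪ B) hmm v (fun i hi => hsp i fun h => hi ?_) hv
    exact Finset.union_subset_union_right hTB h
  have hcu : ∀ T, T ⊆ S → (D ∪ T).card = D.card + T.card := fun T hTS =>
    Finset.card_union_of_disjoint (Finset.disjoint_of_subset_right hTS hDS)
  have hcc : ∀ T, T ⊆ S → ((D ∪ T)ᶜ).card = D.card + 12 - T.card := by
    intro T hTS
    rw [Finset.card_compl, Fintype.card_fin, hcu T hTS]
    omega
  -- (2)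
  have hi1 : ∀ i ∈ S, W ψ (D ∪ S.erase i)ᶜ = 1 := by
    intro i hi
    have h3 : (S.erase i).card = 7 := by
      rw [Finset.card_erase_of_mem hi, hS]
    obtain ⟨j, hj, hmm⟩ : ∃ j ∈ S.erase i, MaxMixed ψ (D ∪ (S.erase i).erase j) := by
      by_contra hno
      push Not at hno
      have h4 : ((S.erase i).image fun j => (S.erase i).erase j) ⊆ Bad := by
        intro B hB
        obtain ⟨j, hj, rfl⟩ := Finset.mem_image.1 hB
        refine Finset.mem_filter.2 ⟨Finset.mem_powersetCard.2 ⟨?_, ?_⟩, hno j hj⟩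
        · exact (Finset.erase_subset _ _).trans (Finset.erase_subset _ _)
        · rw [Finset.card_erase_of_mem hj, h3]
      have h5 : ((S.erase i).image fun j => (S.erase i).erase j).card = 7 := by
        rw [Finset.card_image_of_injOn, h3]
        intro j hj j' hj' hjj
        by_contra hne
        have h6 : j ∈ (S.erase i).erase j' := Finset.mem_erase.2 ⟨hne, hj⟩
        have h7 : (S.erase i).erase j = (S.erase i).erase j' := hjj
        rw [← h7] at h6
        exact Finset.notMem_erase j _ h6
      have := Finset.card_le_card h4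
      omega
    have hsub : (S.erase i).erase j ⊆ S :=
      (Finset.erase_subset _ _).trans (Finset.erase_subset _ _)
    have hc6 : ((S.erase i).erase j).card = 6 := by
      rw [Finset.card_erase_of_mem hj, h3]
    have h4 : W ψ (D ∪ (S.erase i).erase j) = 1 :=
      W_one hev _ fun v hv hsp => h1 n ψ _ hmm v hsp hv
    have h5 := h2 n ψ (D ∪ (S.erase i).erase j)
    rw [h4, hcc _ hsub, hcu _ hsub, hc6, show D.card + 12 - 6 = D.card + 6 by omega] at h5
    have h6 : W ψ (D ∪ (S.erase i).erase j)ᶜ = 1 := by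
      have h7 : (0 : ℝ) < 2 ^ (D.card + 6) := by positivity
      nlinarith
    refine le_antisymm (le_trans (W_mono ?_) h6.le) (W_ge hev _)
    exact Finset.compl_subset_compl.2 (Finset.union_subset_union_right (Finset.erase_subset _ _))
  have hi4 : ∀ i ∈ S, W ψ (D ∪ S.erase i) = 4 := by
    intro i hi
    have h3 : (S.erase i).card = 7 := by
      rw [Finset.card_erase_of_mem hi, hS]
    have h5 := h2 n ψ (D ∪ S.erase i)
    rw [hi1 i hi, hcc _ (Finset.erase_subset _ _), hcu _ (Finset.erase_subset _ _), h3,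
      show D.card + 12 - 7 = D.card + 5 by omega] at h5
    have h7 : (0 : ℝ) < 2 ^ D.card := by positivity
    rw [pow_add, pow_add] at h5
    nlinarith
  have h16 : W ψ (D ∪ S) = 16 := by
    obtain ⟨i, hi⟩ : S.Nonempty := by
      rw [← Finset.card_pos]
      omega
    have h3 : W ψ (D ∪ S)ᶜ = 1 := by
      refine le_antisymm (le_trans (W_mono ?_) (hi1 i hi).le) (W_ge hev _)
      exact Finset.compl_subset_compl.2 (Finset.union_subset_union_right (Finset.erase_subset _ _))
    have h5 := h2 n ψ (D ∪ S)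
    rw [h3, hcc _ subset_rfl, hcu _ subset_rfl, hS,
      show D.card + 12 - 8 = D.card + 4 by omega] at h5
    have h7 : (0 : ℝ) < 2 ^ D.card := by positivity
    rw [pow_add, pow_add] at h5
    nlinarith
  -- (4)
  have hle4 : ∀ B, B ⊆ S → B.card = 6 → W ψ (D ∪ B) ≤ 4 := by
    intro B hBS hBc
    obtain ⟨i, hi⟩ : B.Nonempty := by
      rw [← Finset.card_pos]
      omega
    have hsub : B.erase i ⊆ S := (Finset.erase_subset _ _).trans hBS
    have h3 : (B.erase i).card = 5 := by
      rw [Finset.card_erase_of_mem hi, hBc]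
    have h4 : W ψ (D ∪ B.erase i) = 1 := W_one hev _ (hzero _ hsub h3.le)
    have h5 := h2 n ψ (D ∪ B.erase i)
    rw [h4, hcc _ hsub, hcu _ hsub, h3, show D.card + 12 - 5 = D.card + 7 by omega] at h5
    have h7 : (0 : ℝ) < 2 ^ D.card := by positivity
    have h8 : W ψ (D ∪ B.erase i)ᶜ = 4 := by
      rw [pow_add, pow_add] at h5
      nlinarith
    have h9 : W ψ (D ∪ B)ᶜ ≤ 4 := by
      refine le_trans (W_mono ?_) h8.le
      exact Finset.compl_subset_compl.2 (Finset.union_subset_union_right (Finset.erase_subset _ _))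
    have h10 := h2 n ψ (D ∪ B)
    rw [hcc _ hBS, hcu _ hBS, hBc, show D.card + 12 - 6 = D.card + 6 by omega] at h10
    have h11 : (0 : ℝ) < 2 ^ (D.card + 6) := by positivity
    nlinarith
  -- (3)
  have hsum : ∑ i ∈ S, W ψ (D ∪ S.erase i) = 32 := by
    rw [Finset.sum_congr rfl hi4, Finset.sum_const, hS]
    norm_num
  have hsum2 : ∑ i ∈ S, W ψ (D ∪ S.erase i) = ∑ v : Vc n, if Sp (D ∪ S) v then
      ((S.filter fun i => v i = 0).card : ℝ) * ‖ev ψ v‖ ^ 2 else 0 := by
    have h3 : ∀ i ∈ S, W ψ (D ∪ S.erase i) = ∑ v : Vc n, if Sp (D ∪ S) v then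
        (if v i = 0 then ‖ev ψ v‖ ^ 2 else 0) else 0 := by
      intro i hi
      rw [W_eq]
      refine Finset.sum_congr rfl fun v _ => ?_
      by_cases h4 : Sp (D ∪ S) v
      · rw [if_pos h4]
        by_cases h5 : v i = 0
        · rw [if_pos h5, if_pos]
          intro j hj
          by_cases hji : j = i
          · rw [hji, h5]
          · apply h4
            intro h6
            apply hj
            rcases Finset.mem_union.1 h6 with h7 | h7
            · exact Finset.mem_union_left _ h7
            · exact Finset.mem_union_right _ (Finset.mem_erase.2 ⟨hji, h7⟩)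
        · rw [if_neg h5, if_neg]
          intro h6
          apply h5
          apply h6
          intro h7
          rcases Finset.mem_union.1 h7 with h8 | h8
          · exact Finset.disjoint_left.1 hDS h8 hi
          · exact Finset.notMem_erase i _ h8
      · rw [if_neg h4, if_neg]
        intro h6
        apply h4
        intro j hj
        apply h6
        intro h7
        apply hj
        exact Finset.union_subset_union_right (Finset.erase_subset _ _) h7
    rw [Finset.sum_congr rfl h3, Finset.sum_comm]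
    refine Finset.sum_congr rfl fun v _ => ?_
    by_cases h4 : Sp (D ∪ S) v
    · simp only [if_pos h4]
      rw [← Finset.sum_filter, Finset.sum_const, nsmul_eq_mul]
    · simp only [if_neg h4, Finset.sum_const_zero]
  have hdiff : ∑ v : Vc n, (if Sp (D ∪ S) v then
      (((S.filter fun i => v i = 0).card : ℝ) - 1) * ‖ev ψ v‖ ^ 2 else 0) = 16 := by
    have h3 : ∀ v : Vc n, (if Sp (D ∪ S) v then
        (((S.filter fun i => v i = 0).card : ℝ) - 1) * ‖ev ψ v‖ ^ 2 else 0) =
        (if Sp (D ∪ S) v then ((S.filter fun i => v i = 0).card : ℝ) * ‖ev ψ v‖ ^ 2 else 0) -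
        (if Sp (D ∪ S) v then ‖ev ψ v‖ ^ 2 else 0) := by
      intro v
      split_ifs
      · ring
      · ring
    rw [Finset.sum_congr rfl fun v _ => h3 v, Finset.sum_sub_distrib, ← hsum2, hsum, ← W_eq, h16]
    norm_num
  have hpt : ∀ v : Vc n, (if Sp (D ∪ S) v then
      (((S.filter fun i => v i = 0).card : ℝ) - 1) * ‖ev ψ v‖ ^ 2 else 0) ≤
      (if v = 0 then (7 : ℝ) else 0) +
        ∑ B ∈ Bad, if v ≠ 0 ∧ Sp (D ∪ B) v then ‖ev ψ v‖ ^ 2 else 0 := by
    intro v
    have hnn : ∀ B ∈ Bad, (0 : ℝ) ≤ if v ≠ 0 ∧ Sp (D ∪ B) v then ‖ev ψ v‖ ^ 2 else 0 := by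
      intro B _
      split_ifs
      · positivity
      · exact le_rfl
    have hnn2 := Finset.sum_nonneg hnn
    by_cases hv : v = 0
    · rw [if_pos hv]
      have h3 : (S.filter fun i => v i = 0) = S := by
        rw [hv]
        exact Finset.filter_true_of_mem fun _ _ => rfl
      rw [h3, hS, hv, if_pos (sp_zero _), hev]
      rw [hv] at hnn2
      norm_num
    · rw [if_neg hv, zero_add]
      by_cases h4 : Sp (D ∪ S) v
      · rw [if_pos h4]
        have h5 := Finset.card_filter_add_card_filter_not (s := S) (fun i => v i = 0)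
        rw [hS] at h5
        set T := S.filter (fun i => ¬ v i = 0) with hT'
        have hTS : T ⊆ S := Finset.filter_subset _ _
        have hspT : Sp (D ∪ T) v := by
          intro i hi
          by_contra h6
          by_cases h7 : i ∈ S
          · exact hi (Finset.mem_union_right _ (Finset.mem_filter.2 ⟨h7, h6⟩))
          · apply h6
            apply h4
            intro h8
            rcases Finset.mem_union.1 h8 with h9 | h9
            · exact hi (Finset.mem_union_left _ h9)
            · exact h7 h9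
        have hw : 0 ≤ ‖ev ψ v‖ ^ 2 := by positivity
        rcases lt_trichotomy (S.filter fun i => v i = 0).card 2 with h6 | h6 | h6
        · have h7 : ((S.filter fun i => v i = 0).card : ℝ) ≤ 1 := by
            exact_mod_cast Nat.lt_succ_iff.1 h6
          nlinarith
        · by_cases h7 : T ∈ Bad
          · have h8 := Finset.single_le_sum hnn h7
            rw [if_pos ⟨hv, hspT⟩] at h8
            rw [h6]
            push_cast
            linarith
          · have h8 := h1 n ψ _ (hgood T hTS (by omega) h7) v hspT hv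
            rw [h8] at hnn2 ⊢
            simpa using hnn2
        · have h8 := hzero T hTS (by omega) v hv hspT
          rw [h8] at hnn2 ⊢
          simpa using hnn2
      · rw [if_neg h4]
        exact hnn2
  have hfin := Finset.sum_le_sum fun v (_ : v ∈ (Finset.univ : Finset (Vc n))) => hpt v
  rw [hdiff, Finset.sum_add_distrib, Finset.sum_ite_eq', if_pos (Finset.mem_univ _),
    Finset.sum_comm] at hfin
  have hB3 : ∀ B ∈ Bad, ∑ v : Vc n, (if v ≠ 0 ∧ Sp (D ∪ B) v then ‖ev ψ v‖ ^ 2 else 0) ≤ 3 := by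
    intro B hB
    rw [hBad, Finset.mem_filter, Finset.mem_powersetCard] at hB
    have h3 := hle4 B hB.1.1 hB.1.2
    rw [W_sub hev] at h3
    linarith
  have h3 := Finset.sum_le_sum hB3
  rw [Finset.sum_const, nsmul_eq_mul] at h3
  have h4 : (Bad.card : ℝ) ≤ 2 := by exact_mod_cast hB2
  linarith

end Pool.Agent.N402.QX
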